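import Pool.Agent.H974R3.LBoxAP

/-!
Chowla's conjecture for almost all integer polynomials of degree at most `d` and height at most `H`,
simultaneously for all `K` with `H^ε ≤ K ≤ H / (log H)^B` and all residue classes modulo all
`m ≤ (log H)^U`, with arbitrary logarithmic savings.
-/

set_option autoImplicit false

namespace Pool.Agent.Results.MP_892e4c_nt.AlmostAllHeightBox

open Finset Polynomial Filter

/-- Liouville's function on the integers: `λ(k) = (-1)^Ω(|k|)` for `k ≠ 0`, `λ(0) = 0`. -/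
def lam (k : ℤ) : ℤ := if k = 0 then 0 else (-1) ^ ArithmeticFunction.cardFactors k.natAbs

/-- the integer polynomial `c 0 + c 1 X + ... + c d X^d` -/
noncomputable def poly (d : ℕ) (c : Fin (d + 1) → ℤ) : ℤ[X] := ∑ i, C (c i) * X ^ (i : ℕ)

/-- the coefficient vectors `c` with `|c i| ≤ H` for all `i`: all polynomials of degree at most `d`
and height at most `H` -/
noncomputable def box (d H : ℕ) : Finset (Fin (d + 1) → ℤ) :=
  Fintype.piFinset fun _ => Icc (-(H : ℤ)) H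

/-- `∑ λ(f(n))` over the `n ≤ K` with `n ≥ 1` and `n ≡ b` modulo `m` -/
noncomputable def liouvilleSum (f : ℤ[X]) (m b K : ℕ) : ℤ :=
  ∑ n ∈ (Icc 1 K).filter (fun n => n ≡ b [MOD m]), lam (f.eval (n : ℤ))

/-- `∑ μ(|f(n)|)` over the `n ≤ K` with `n ≥ 1` and `n ≡ b` modulo `m` -/
noncomputable def moebiusSum (f : ℤ[X]) (m b K : ℕ) : ℤ :=
  ∑ n ∈ (Icc 1 K).filter (fun n => n ≡ b [MOD m]),
    ArithmeticFunction.moebius (f.eval (n : ℤ)).natAbs

/-- the Liouville function as a complex valued function with value `0` at `0` -/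
noncomputable def gl (n : ℕ) : ℂ := if n = 0 then 0 else (-1) ^ ArithmeticFunction.cardFactors n

lemma gl_norm (n : ℕ) : ‖gl n‖ ≤ 1 := by
  unfold gl
  split_ifs
  · simp
  · rw [norm_pow, norm_neg, norm_one, one_pow]

lemma gl_sup : Pool.Agent.H373R2.T7.SupSmall gl := by
  intro U
  obtain ⟨N0, h⟩ := Pool.Agent.H373R2.T7.sup_liou U
  refine ⟨N0, fun N hN α => le_trans (le_of_eq ?_) (h N hN α)⟩
  congr 1
  refine sum_congr rfl fun n hn => ?_
  rw [mem_Icc] at hn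
  unfold gl Pool.Agent.H373R2.T7.liR
  rw [if_neg (by omega)]

lemma sg_gl (f : ℤ[X]) (m b K : ℕ) :
    Pool.Agent.H974R3.LA.sg gl m (b % m) f K = |((liouvilleSum f m b K : ℤ) : ℝ)| := by
  unfold Pool.Agent.H974R3.LA.sg liouvilleSum
  rw [← Complex.norm_intCast]
  congr 1
  push_cast
  refine sum_congr rfl fun k _ => ?_
  unfold gl lam
  by_cases h : f.eval (k : ℤ) = 0
  · rw [h]; simp
  · rw [if_neg (by omega), if_neg h]
    push_cast
    rfl

lemma sg_mu (f : ℤ[X]) (m b K : ℕ) :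
    Pool.Agent.H974R3.LA.sg Pool.Agent.H373R2.T7.muC m (b % m) f K =
      |((moebiusSum f m b K : ℤ) : ℝ)| := by
  unfold Pool.Agent.H974R3.LA.sg moebiusSum
  rw [← Complex.norm_intCast]
  congr 1
  push_cast
  rfl

open Classical in
/-- **Chowla's conjecture for almost all polynomials of bounded height.** Let `d ≥ 1`, `ε > 0` and
`U` be given and let `B` and `H` be large. Among the `(2H+1)^(d+1)` integer polynomials `f` of degree
at most `d` with all coefficients of absolute value at most `H`, all but at most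
`(2H+1)^(d+1) / (log H)^U` satisfy, simultaneously for **all** `K` with `H^ε ≤ K ≤ H / (log H)^B`,
all `m` with `1 ≤ m ≤ (log H)^U` and all `b`, the bounds
`|∑ λ(f(n))| ≤ (K / m) / (log H)^U` and `|∑ μ(|f(n)|)| ≤ (K / m) / (log H)^U`
for the sums over the positive integers `n ≤ K` with `n ≡ b mod m`. -/
theorem result (d : ℕ) (hd : 1 ≤ d) (ε : ℝ) (hε : 0 < ε) (U : ℕ) : ∃ B H0 : ℕ, ∀ H : ℕ, H0 ≤ H →
    (((box d H).filter (fun c => ∃ K m b : ℕ, (H : ℝ) ^ ε ≤ K ∧ (K : ℝ) * Real.log H ^ B ≤ H ∧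
      1 ≤ m ∧ (m : ℝ) ≤ Real.log H ^ U ∧
      ((K / m : ℝ) / Real.log H ^ U < |((liouvilleSum (poly d c) m b K : ℤ) : ℝ)| ∨
        (K / m : ℝ) / Real.log H ^ U < |((moebiusSum (poly d c) m b K : ℤ) : ℝ)|))).card : ℝ) ≤
      (2 * H + 1) ^ (d + 1) / Real.log H ^ U := by
  obtain ⟨B1, H1, h1⟩ := Pool.Agent.H974R3.LA.exc_box gl (by simp [gl]) gl_norm gl_sup d hd ε hε
    (2 * U)
  obtain ⟨B2, H2, h2⟩ := Pool.Agent.H974R3.LA.exc_box Pool.Agent.H373R2.T7.muC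
    (by simp [Pool.Agent.H373R2.T7.muC]) Pool.Agent.H373R2.T7.muC_norm
    Pool.Agent.H373R2.T7.sup_muC d hd ε hε (2 * U)
  have hev : ∀ᶠ H : ℕ in atTop, H1 ≤ H ∧ H2 ≤ H ∧ 2 ≤ Real.log H := by
    filter_upwards [eventually_ge_atTop H1, eventually_ge_atTop H2,
      Pool.Agent.H442R2.EHI.evt_log_ge 2] with H a b c
    exact ⟨a, b, c⟩
  obtain ⟨H0, hH0⟩ := eventually_atTop.mp hev
  refine ⟨max B1 B2, H0, fun H hH => ?_⟩
  obtain ⟨hH1, hH2, hL⟩ := hH0 H hH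
  have e1 := h1 H hH1
  have e2 := h2 H hH2
  rw [Pool.Agent.H101R3.FullAbs.bo_card] at e1 e2
  push_cast at e1 e2
  set L := Real.log H with hLdef
  have hL0 : 0 < L := by linarith
  have hL1 : 1 ≤ L := by linarith
  have hLp0 : ∀ n : ℕ, 0 < L ^ n := fun n => pow_pos hL0 n
  -- comparison of the bounds
  have hcmp : ∀ (K m : ℕ), 1 ≤ m → (m : ℝ) ≤ L ^ U → ∀ t : ℝ, (K / m : ℝ) / L ^ U < t →
      (m : ℝ) ≤ L ^ (2 * U) ∧ (K : ℝ) / L ^ (2 * U) < t := by
    intro K m hm hmL t ht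
    have hmr : (0:ℝ) < m := by exact_mod_cast hm
    constructor
    · exact hmL.trans (pow_le_pow_right₀ hL1 (by omega))
    · refine lt_of_le_of_lt ?_ ht
      rw [div_div]
      apply div_le_div_of_nonneg_left (Nat.cast_nonneg _) (mul_pos hmr (hLp0 U))
      rw [two_mul, pow_add]
      exact mul_le_mul_of_nonneg_right hmL (hLp0 U).le
  have hsub : (box d H).filter (fun c => ∃ K m b : ℕ, (H : ℝ) ^ ε ≤ K ∧
      (K : ℝ) * L ^ (max B1 B2) ≤ H ∧ 1 ≤ m ∧ (m : ℝ) ≤ L ^ U ∧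
      ((K / m : ℝ) / L ^ U < |((liouvilleSum (poly d c) m b K : ℤ) : ℝ)| ∨
        (K / m : ℝ) / L ^ U < |((moebiusSum (poly d c) m b K : ℤ) : ℝ)|)) ⊆
      (Pool.Agent.H101R3.FullAbs.bo d H).filter (fun v => ∃ K m c : ℕ, (H : ℝ) ^ ε ≤ K ∧
        (K : ℝ) * L ^ B1 ≤ H ∧ c < m ∧ (m : ℝ) ≤ L ^ (2 * U) ∧
        K / L ^ (2 * U) < Pool.Agent.H974R3.LA.sg gl m c (Pool.Agent.H101R3.FullAbs.po d v) K) ∪
      (Pool.Agent.H101R3.FullAbs.bo d H).filter (fun v => ∃ K m c : ℕ, (H : ℝ) ^ ε ≤ K ∧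
        (K : ℝ) * L ^ B2 ≤ H ∧ c < m ∧ (m : ℝ) ≤ L ^ (2 * U) ∧
        K / L ^ (2 * U) < Pool.Agent.H974R3.LA.sg Pool.Agent.H373R2.T7.muC m c
          (Pool.Agent.H101R3.FullAbs.po d v) K) := by
    intro v hv
    rw [mem_filter] at hv
    obtain ⟨hvb, K, m, b, hK1, hK2, hm, hmL, hK3⟩ := hv
    have hKn : (0:ℝ) ≤ K := Nat.cast_nonneg _
    rw [mem_union, mem_filter, mem_filter]
    rcases hK3 with h | h
    · left
      obtain ⟨a1, a2⟩ := hcmp K m hm hmL _ h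
      refine ⟨hvb, K, m, b % m, hK1, le_trans ?_ hK2, Nat.mod_lt _ hm, a1, ?_⟩
      · exact mul_le_mul_of_nonneg_left (pow_le_pow_right₀ hL1 (le_max_left _ _)) hKn
      · rw [sg_gl]; exact a2
    · right
      obtain ⟨a1, a2⟩ := hcmp K m hm hmL _ h
      refine ⟨hvb, K, m, b % m, hK1, le_trans ?_ hK2, Nat.mod_lt _ hm, a1, ?_⟩
      · exact mul_le_mul_of_nonneg_left (pow_le_pow_right₀ hL1 (le_max_right _ _)) hKn
      · rw [sg_mu]; exact a2
  have hcard := (card_le_card hsub).trans (card_union_le _ _)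
  have hcard' := (Nat.cast_le (α := ℝ)).2 hcard
  push_cast at hcard'
  refine hcard'.trans ((add_le_add e1 e2).trans ?_)
  have hX : (0:ℝ) ≤ (2 * H + 1) ^ (d + 1) / L ^ U := by positivity
  have hY : (2 * (H:ℝ) + 1) ^ (d + 1) / L ^ (2 * U + 1) ≤ (2 * (H:ℝ) + 1) ^ (d + 1) / L ^ (U + 1) := by
    apply div_le_div_of_nonneg_left (by positivity) (hLp0 _)
    exact pow_le_pow_right₀ hL1 (by omega)
  calc (2 * (H:ℝ) + 1) ^ (d + 1) / L ^ (2 * U + 1) + (2 * (H:ℝ) + 1) ^ (d + 1) / L ^ (2 * U + 1)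
      ≤ (2 * (H:ℝ) + 1) ^ (d + 1) / L ^ (U + 1) + (2 * (H:ℝ) + 1) ^ (d + 1) / L ^ (U + 1) :=
        add_le_add hY hY
    _ = (2 * (H:ℝ) + 1) ^ (d + 1) / L ^ U * (2 / L) := by
        rw [pow_succ L U]
        field_simp
        ring
    _ ≤ (2 * (H:ℝ) + 1) ^ (d + 1) / L ^ U * 1 := by
        apply mul_le_mul_of_nonneg_left _ hX
        rw [div_le_one hL0]
        exact hL
    _ = _ := mul_one _

end Pool.Agent.Results.MP_892e4c_nt.AlmostAllHeightBox
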